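import Mathlib
import Pool.Agent.Helper18.Peb.Reg
import Pool.Agent.Helper18.Peb.St.PB4

set_option autoImplicit false

/-!
PB-5: the distance facts of the concrete graph, from `rch_pt` (PB-4).
-/

namespace Pool.Agent.Helper2.PB

open Pool.Agent.Helper18.Peb

section
variable {x : ℕ}

/-- abbreviation for the concrete skeleton -/
abbrev XX (x : ℕ) : Skel (KV 1024 x) (KE 1024 x) := skel 1024 x 10 34 60 104

lemma XX_two_le (e : KE 1024 x) : 2 ≤ (XX x).len e :=
  skel_two_le (by omega) (by omega) (by omega) (by omega) e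

lemma seg (e : KE 1024 x) (a b : ℕ) (hab : a ≤ b) (hb : b ≤ (XX x).len e) :
    Rch (XX x).G (b - a) ((XX x).pt e a) ((XX x).pt e b) ∧
      Rch (XX x).G (b - a) ((XX x).pt e b) ((XX x).pt e a) :=
  rch_pt (XX x) XX_two_le e a b hab hb

/-- from a point of a path to its source and target, both ways -/
lemma seg' (e : KE 1024 x) (a : ℕ) (ha : a ≤ (XX x).len e) :
    (Rch (XX x).G a ((XX x).pt e a) (.inl ((XX x).src e)) ∧
      Rch (XX x).G a (.inl ((XX x).src e)) ((XX x).pt e a)) ∧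
    (Rch (XX x).G ((XX x).len e - a) ((XX x).pt e a) (.inl ((XX x).tgt e)) ∧
      Rch (XX x).G ((XX x).len e - a) (.inl ((XX x).tgt e)) ((XX x).pt e a)) := by
  have h0 := seg e 0 a (Nat.zero_le _) ha
  have h1 := seg e a _ ha (le_refl _)
  rw [Skel.pt_zero, Nat.sub_zero] at h0
  rw [Skel.pt_len (XX x) e (by have := XX_two_le e; omega)] at h1
  exact ⟨⟨h0.2, h0.1⟩, h1⟩

/-- the whole path -/
lemma seg'' (e : KE 1024 x) :
    Rch (XX x).G ((XX x).len e) (.inl ((XX x).src e)) (.inl ((XX x).tgt e)) ∧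
      Rch (XX x).G ((XX x).len e) (.inl ((XX x).tgt e)) (.inl ((XX x).src e)) := by
  have h0 := (seg' e ((XX x).len e) (le_refl _)).1
  rw [Skel.pt_len (XX x) e (by have := XX_two_le e; omega)] at h0
  exact ⟨h0.2, h0.1⟩

lemma len_zg (σ : Star 1024 x) (i : Fin 1024) : (XX x).len (.zg σ i) ≤ 35 := by
  show (if σ.1 = i then 34 else 34 + 1) ≤ 35
  split_ifs <;> omega

lemma len_zc (σ : Star 1024 x) (i : Fin 1024) : (XX x).len (.zc σ i) ≤ 35 := by
  show (if σ.2.1 = i then 34 else 34 + 1) ≤ 35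
  split_ifs <;> omega

lemma own_g' (σ : Star 1024 x) : Rch (XX x).G 34 (.inl (.z σ)) (.inl (.g σ.1)) ∧
    Rch (XX x).G 34 (.inl (.g σ.1)) (.inl (.z σ)) := by
  have h := seg'' (x := x) (.zg σ σ.1)
  have hl : (XX x).len (.zg σ σ.1) = 34 := by
    show (if σ.1 = σ.1 then 34 else 34 + 1) = 34
    simp
  rw [hl] at h
  exact h

lemma own_c' (σ : Star 1024 x) : Rch (XX x).G 34 (.inl (.z σ)) (.inl (.c σ.2.1)) ∧
    Rch (XX x).G 34 (.inl (.c σ.2.1)) (.inl (.z σ)) := by
  have h := seg'' (x := x) (.zc σ σ.2.1)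
  have hl : (XX x).len (.zc σ σ.2.1) = 34 := by
    show (if σ.2.1 = σ.2.1 then 34 else 34 + 1) = 34
    simp
  rw [hl] at h
  exact h

theorem own_g (σ : Star 1024 x) : Rch (XX x).G 34 (.inl (.z σ)) (.inl (.g σ.1)) :=
  (own_g' σ).1

theorem own_c (σ : Star 1024 x) : Rch (XX x).G 34 (.inl (.z σ)) (.inl (.c σ.2.1)) :=
  (own_c' σ).1

theorem any_g (σ : Star 1024 x) (i : Fin 1024) :
    Rch (XX x).G 35 (.inl (.z σ)) (.inl (.g i)) ∧ Rch (XX x).G 35 (.inl (.g i)) (.inl (.z σ)) := by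
  have h := seg'' (x := x) (.zg σ i)
  exact ⟨h.1.mono (len_zg σ i), h.2.mono (len_zg σ i)⟩

theorem any_c (σ : Star 1024 x) (i : Fin 1024) :
    Rch (XX x).G 35 (.inl (.z σ)) (.inl (.c i)) ∧ Rch (XX x).G 35 (.inl (.c i)) (.inl (.z σ)) := by
  have h := seg'' (x := x) (.zc σ i)
  exact ⟨h.1.mono (len_zc σ i), h.2.mono (len_zc σ i)⟩

theorem hub_g (i : Fin 1024) :
    Rch (XX x).G 104 (.inl (.g i)) (.inl .u) ∧ Rch (XX x).G 104 (.inl .u) (.inl (.g i)) :=
  seg'' (x := x) (.gu i)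

theorem hub_c (i : Fin 1024) :
    Rch (XX x).G 104 (.inl (.c i)) (.inl .v) ∧ Rch (XX x).G 104 (.inl .v) (.inl (.c i)) :=
  seg'' (x := x) (.cv i)

/-- vertices of a star are within `60` of its centre -/
theorem star_center (a : (XX x).Vx) (σ : Star 1024 x) (h : reg 1024 x 10 34 60 104 a = some σ) :
    Rch (XX x).G 60 a (.inl (.z σ)) ∧ Rch (XX x).G 60 (.inl (.z σ)) a := by
  rcases a with A | ⟨e, k⟩
  · cases A with
    | u => simp [reg, regK] at h
    | v => simp [reg, regK] at h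
    | g i => simp [reg, regK] at h
    | c i => simp [reg, regK] at h
    | z τ =>
      have h' : τ = σ := by simpa [reg, regK] using h
      subst h'
      exact ⟨Rch.refl _ _, Rch.refl _ _⟩
    | y τ =>
      have h' : τ = σ := by simpa [reg, regK] using h
      subst h'
      exact seg'' (x := x) (.tail τ)
  · have hk := k.2
    rw [Skel.inr_eq_pt (XX x) e k]
    cases e with
    | uv => simp [reg, regE] at h
    | gu i => simp [reg, regE] at h
    | cv i => simp [reg, regE] at h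
    | tail τ =>
      have h' : τ = σ := by simpa [reg, regE] using h
      subst h'
      have h1 := (seg' (x := x) (.tail τ) (k.1 + 1) (by omega)).2
      have h2 : (XX x).len (.tail τ) - (k.1 + 1) ≤ 60 := by
        have h3 : (XX x).len (.tail τ) = 60 := rfl
        omega
      exact ⟨h1.1.mono h2, h1.2.mono h2⟩
    | zg τ i =>
      have h' : τ = σ := by simpa [reg, regE] using h
      subst h'
      have h1 := (seg' (x := x) (.zg τ i) (k.1 + 1) (by omega)).1
      have h2 : k.1 + 1 ≤ 60 := by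
        have h3 := len_zg τ i
        omega
      exact ⟨h1.1.mono h2, h1.2.mono h2⟩
    | zc τ i =>
      have h' : τ = σ := by simpa [reg, regE] using h
      subst h'
      have h1 := (seg' (x := x) (.zc τ i) (k.1 + 1) (by omega)).1
      have h2 : k.1 + 1 ≤ 60 := by
        have h3 := len_zc τ i
        omega
      exact ⟨h1.1.mono h2, h1.2.mono h2⟩

/-- position data of a core vertex -/
lemma core_data (a : (XX x).Vx) (h : reg 1024 x 10 34 60 104 a = none) :
    (∃ i q, q ≤ 104 ∧ (Rch (XX x).G q a (.inl (.g i)) ∧ Rch (XX x).G q (.inl (.g i)) a) ∧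
      (Rch (XX x).G (104 - q) a (.inl .u) ∧ Rch (XX x).G (104 - q) (.inl .u) a)) ∨
    (∃ i q, q ≤ 104 ∧ (Rch (XX x).G q a (.inl (.c i)) ∧ Rch (XX x).G q (.inl (.c i)) a) ∧
      (Rch (XX x).G (104 - q) a (.inl .v) ∧ Rch (XX x).G (104 - q) (.inl .v) a)) ∨
    (∃ q, q ≤ 10 ∧ (Rch (XX x).G q a (.inl .u) ∧ Rch (XX x).G q (.inl .u) a) ∧
      (Rch (XX x).G (10 - q) a (.inl .v) ∧ Rch (XX x).G (10 - q) (.inl .v) a)) := by
  rcases a with A | ⟨e, k⟩
  · cases A with
    | u =>
      right; right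
      exact ⟨0, by omega, ⟨Rch.refl _ _, Rch.refl _ _⟩, seg'' (x := x) .uv⟩
    | v =>
      right; right
      exact ⟨10, by omega, (seg'' (x := x) .uv).symm, ⟨Rch.refl _ _, Rch.refl _ _⟩⟩
    | g i =>
      left
      exact ⟨i, 0, by omega, ⟨Rch.refl _ _, Rch.refl _ _⟩, seg'' (x := x) (.gu i)⟩
    | c i =>
      right; left
      exact ⟨i, 0, by omega, ⟨Rch.refl _ _, Rch.refl _ _⟩, seg'' (x := x) (.cv i)⟩
    | z τ => simp [reg, regK] at h
    | y τ => simp [reg, regK] at h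
  · have hk := k.2
    rw [Skel.inr_eq_pt (XX x) e k]
    cases e with
    | uv =>
      right; right
      have hl : (XX x).len .uv = 10 := rfl
      have h1 := seg' (x := x) .uv (k.1 + 1) (by omega)
      exact ⟨k.1 + 1, by omega, h1.1, h1.2⟩
    | gu i =>
      left
      have hl : (XX x).len (.gu i) = 104 := rfl
      have h1 := seg' (x := x) (.gu i) (k.1 + 1) (by omega)
      exact ⟨i, k.1 + 1, by omega, h1.1, h1.2⟩
    | cv i =>
      right; left
      have hl : (XX x).len (.cv i) = 104 := rfl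
      have h1 := seg' (x := x) (.cv i) (k.1 + 1) (by omega)
      exact ⟨i, k.1 + 1, by omega, h1.1, h1.2⟩
    | tail τ => simp [reg, regE] at h
    | zg τ i => simp [reg, regE] at h
    | zc τ i => simp [reg, regE] at h

/-- every core vertex is within `99` of a gate or within `5` of a hub -/
theorem core_class (a : (XX x).Vx) (h : reg 1024 x 10 34 60 104 a = none) :
    (∃ i, Rch (XX x).G 99 a (.inl (.g i)) ∧ Rch (XX x).G 99 (.inl (.g i)) a) ∨
    (∃ i, Rch (XX x).G 99 a (.inl (.c i)) ∧ Rch (XX x).G 99 (.inl (.c i)) a) ∨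
    (Rch (XX x).G 5 a (.inl .u) ∧ Rch (XX x).G 5 (.inl .u) a) ∨
    (Rch (XX x).G 5 a (.inl .v) ∧ Rch (XX x).G 5 (.inl .v) a) := by
  rcases core_data a h with ⟨i, q, hq, h1, h2⟩ | ⟨i, q, hq, h1, h2⟩ | ⟨q, hq, h1, h2⟩
  · by_cases hc : q ≤ 99
    · left
      exact ⟨i, h1.1.mono hc, h1.2.mono hc⟩
    · right; right; left
      exact ⟨h2.1.mono (by omega), h2.2.mono (by omega)⟩
  · by_cases hc : q ≤ 99
    · right; left
      exact ⟨i, h1.1.mono hc, h1.2.mono hc⟩
    · right; right; right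
      exact ⟨h2.1.mono (by omega), h2.2.mono (by omega)⟩
  · by_cases hc : q ≤ 5
    · right; right; left
      exact ⟨h1.1.mono hc, h1.2.mono hc⟩
    · right; right; right
      exact ⟨h2.1.mono (by omega), h2.2.mono (by omega)⟩

lemma g_g (hx : 0 < x) (i i' : Fin 1024) : Rch (XX x).G 69 (.inl (.g i)) (.inl (.g i')) :=
  (own_g' (x := x) (i, 0, ⟨0, hx⟩)).2.trans (any_g (x := x) (i, 0, ⟨0, hx⟩) i').1

lemma c_c (hx : 0 < x) (i i' : Fin 1024) : Rch (XX x).G 69 (.inl (.c i)) (.inl (.c i')) :=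
  (own_c' (x := x) (0, i, ⟨0, hx⟩)).2.trans (any_c (x := x) (0, i, ⟨0, hx⟩) i').1

lemma g_c (hx : 0 < x) (i j : Fin 1024) : Rch (XX x).G 68 (.inl (.g i)) (.inl (.c j)) :=
  (own_g' (x := x) (i, j, ⟨0, hx⟩)).2.trans (own_c' (x := x) (i, j, ⟨0, hx⟩)).1

lemma c_g (hx : 0 < x) (j i : Fin 1024) : Rch (XX x).G 68 (.inl (.c j)) (.inl (.g i)) :=
  (own_c' (x := x) (i, j, ⟨0, hx⟩)).2.trans (own_g' (x := x) (i, j, ⟨0, hx⟩)).1

lemma u_v : Rch (XX x).G 10 (.inl .u) (.inl .v) := (seg'' (x := x) .uv).1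

lemma v_u : Rch (XX x).G 10 (.inl .v) (.inl .u) := (seg'' (x := x) .uv).2

/-- core vertices are within `173` of each other -/
theorem core_core (hx : 0 < x) (a b : (XX x).Vx) (ha : reg 1024 x 10 34 60 104 a = none)
    (hb : reg 1024 x 10 34 60 104 b = none) : Rch (XX x).G 173 a b := by
  rcases core_data a ha with ⟨i, q, hq, h1, h2⟩ | ⟨i, q, hq, h1, h2⟩ | ⟨q, hq, h1, h2⟩ <;>
  rcases core_data b hb with ⟨j, r, hr, h3, h4⟩ | ⟨j, r, hr, h3, h4⟩ | ⟨r, hr, h3, h4⟩
  · by_cases hc : q + r ≤ 104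
    · exact ((h1.1.trans (g_g hx i j)).trans h3.2).mono (by omega)
    · exact (h2.1.trans h4.2).mono (by omega)
  · by_cases hc : q + r ≤ 104
    · exact ((h1.1.trans (g_c hx i j)).trans h3.2).mono (by omega)
    · exact ((h2.1.trans u_v).trans h4.2).mono (by omega)
  · exact (h2.1.trans h3.2).mono (by omega)
  · by_cases hc : q + r ≤ 104
    · exact ((h1.1.trans (c_g hx i j)).trans h3.2).mono (by omega)
    · exact ((h2.1.trans v_u).trans h4.2).mono (by omega)
  · by_cases hc : q + r ≤ 104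
    · exact ((h1.1.trans (c_c hx i j)).trans h3.2).mono (by omega)
    · exact (h2.1.trans h4.2).mono (by omega)
  · exact (h2.1.trans h4.2).mono (by omega)
  · exact (h1.1.trans h4.2).mono (by omega)
  · exact (h2.1.trans h4.2).mono (by omega)
  · exact (h1.1.trans h3.2).mono (by omega)

end

end Pool.Agent.Helper2.PB
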